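import Pool.Agent.Helper86.TH.Stmts

/-! # Small facts on multiplication operators -/

set_option linter.unusedSectionVars false

namespace TH63

open TH MvPolynomial Finset

variable {K : Type*} [Field K] [CharZero K]

theorem mu_one : mu (1 : Sy K) = 1 := by
  refine LinearMap.ext fun G => ?_
  rw [mu_apply, one_mul, Module.End.one_apply]

theorem mu_mul (F G : Sy K) : mu F * mu G = mu (F * G) := by
  refine LinearMap.ext fun H => ?_
  rw [Module.End.mul_apply, mu_apply, mu_apply, mu_apply, mul_assoc]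

theorem mu_comm (F G : Sy K) : mu F * mu G = mu G * mu F := by
  rw [mu_mul, mu_mul, mul_comm]

theorem Bn_zero (q t : K) : Bn q t 0 = mu (X 0) := rfl

theorem Bn_one (h : ST_DX K) (q t : K) (hM : Mj q t 0 ≠ 0) : Bn q t 1 = -Dk q t 1 := by
  refine LinearMap.ext fun F => ?_
  have h1 := LinearMap.congr_fun (h q t 0) F
  have h2 : Bn q t 1 F = Del q t (mu (X 0) F) - mu (X 0) (Del q t F) := rfl
  have h3 : ∀ G : Sy K, Del q t G = (Mj q t 0)⁻¹ • (G - Dk q t 0 G) := fun G => rfl
  have h4 : Dk q t 0 (mu (X 0) F) = mu (X 0) (Dk q t 0 F) + Mj q t 0 • Dk q t 1 F := h1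
  rw [h2, h3, h3, map_smul, map_sub, h4, ← smul_sub]
  have h5 : mu (X 0) F - (mu (X 0) (Dk q t 0 F) + Mj q t 0 • Dk q t 1 F)
      - (mu (X 0) F - mu (X 0) (Dk q t 0 F)) = (Mj q t 0) • (-(Dk q t 1 F)) := by
    rw [smul_neg]
    abel
  rw [h5, smul_smul, inv_mul_cancel₀ hM, one_smul, LinearMap.neg_apply]

/-- summation with a shift of the second index -/
theorem sum_shift_snd {M : Type*} [AddCommMonoid M] (f : ℕ → ℕ → M) (m : ℕ) :
    ∑ p ∈ antidiagonal (m + 1), (if p.2 = 0 then 0 else f p.1 (p.2 - 1))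
      = ∑ p ∈ antidiagonal m, f p.1 p.2 := by
  rw [Finset.Nat.sum_antidiagonal_succ']
  simp

/-- summation with a shift of the first index -/
theorem sum_shift_fst {M : Type*} [AddCommMonoid M] (f : ℕ → ℕ → M) (m : ℕ) :
    ∑ p ∈ antidiagonal (m + 1), (if p.1 = 0 then 0 else f (p.1 - 1) p.2)
      = ∑ p ∈ antidiagonal m, f p.1 p.2 := by
  rw [Finset.Nat.sum_antidiagonal_succ]
  simp

end TH63
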