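import Pool.Agent.Helper63.TH.Base

/-! # Homogeneous components and diagonal operators -/

set_option linter.unusedSectionVars false

namespace TH63

open TH MvPolynomial Finset

variable {K : Type*} [Field K] [CharZero K]

/-- the projection to degree `n` -/
noncomputable def Pr (K : Type*) [Field K] [CharZero K] (n : ℕ) : Module.End K (Sy K) :=
  weightedHomogeneousComponent (fun j : ℕ => j + 1) n

theorem Pr_same {n : ℕ} {F : Sy K} (h : WH n F) : Pr K n F = F :=
  h.weightedHomogeneousComponent_same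

theorem Pr_ne {n m : ℕ} {F : Sy K} (h : WH m F) (hne : n ≠ m) : Pr K n F = 0 :=
  h.weightedHomogeneousComponent_ne n hne

theorem WH_Pr (n : ℕ) (F : Sy K) : WH n (Pr K n F) :=
  weightedHomogeneousComponent_isWeightedHomogeneous n F

theorem WH_of_Pr {n : ℕ} {F : Sy K} (h : Pr K n F = F) : WH n F := by
  rw [← h]
  exact WH_Pr n F

theorem Pr_eq_dg {q t : K} {b : Module.Basis Par K (Sy K)} (h : IsE q t b) (n : ℕ) :
    Pr K n = dg b (fun μ => if card μ = n then 1 else 0) := by
  refine b.ext fun μ => ?_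
  rw [dg_apply_basis]
  split_ifs with hc
  · rw [one_smul]
    exact Pr_same (hc ▸ h.hom μ)
  · rw [zero_smul]
    exact Pr_ne (h.hom μ) (fun h1 => hc h1.symm)

theorem repr_WH {q t : K} {b : Module.Basis Par K (Sy K)} (h : IsE q t b) {n : ℕ} {F : Sy K}
    (hF : WH n F) {ν : Par} (hν : b.repr F ν ≠ 0) : card ν = n := by
  by_contra hc
  apply hν
  have h1 := Pr_same hF
  rw [Pr_eq_dg h n] at h1
  rw [← h1, dg_repr, if_neg hc, zero_mul]

theorem WH_dg {q t : K} {b : Module.Basis Par K (Sy K)} (h : IsE q t b) {n : ℕ} {F : Sy K}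
    (hF : WH n F) (f : Par → K) : WH n (dg b f F) := by
  apply WH_of_Pr
  have h1 : Pr K n * dg b f = dg b f * Pr K n := by
    rw [Pr_eq_dg h n, dg_comm]
  have h2 := LinearMap.congr_fun h1 F
  have h3 : Pr K n (dg b f F) = dg b f (Pr K n F) := h2
  rw [h3, Pr_same hF]

theorem WH_hc (c : ℕ → Sy K) (h : ∀ i, WH (i + 1) (c i)) (n : ℕ) : WH n (hc c n) := by
  induction n using Nat.strong_induction_on with
  | _ n ih =>
    cases n with
    | zero => rw [hc_zero]; exact isWeightedHomogeneous_one K _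
    | succ n =>
      have h1 : hc c (n + 1)
          = C (((n : K) + 1)⁻¹) * ∑ i ∈ range (n + 1), c i * hc c (n - i) := by
        rw [← hc_rec_mul, ← mul_assoc]
        have h2 : ((n : Sy K) + 1) = C ((n : K) + 1) := by simp
        rw [h2, ← C_mul, inv_mul_cancel₀ (Nat.cast_add_one_ne_zero n), C_1, one_mul]
      rw [h1]
      refine IsWeightedHomogeneous.C_mul ?_ _
      refine IsWeightedHomogeneous.sum _ _ _ fun i hi => ?_
      rw [mem_range] at hi
      have h3 := (h i).mul (ih (n - i) (by omega))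
      have h4 : i + 1 + (n - i) = n + 1 := by omega
      rw [h4] at h3
      exact h3

theorem WH_X (j : ℕ) : WH (j + 1) (X j : Sy K) := isWeightedHomogeneous_X K _ j

theorem WH_C_mul {n : ℕ} {F : Sy K} (h : WH n F) (c : K) : WH n (C c * F) :=
  IsWeightedHomogeneous.C_mul h c

theorem WH_est (q t : K) (n : ℕ) : WH n (est q t n) := by
  refine WH_hc _ (fun i => ?_) n
  have h : ((-1 : Sy K) ^ i * (C (Mj q t i)⁻¹ * X i))
      = C ((-1) ^ i * (Mj q t i)⁻¹) * X i := by
    rw [C_mul, C_pow, C_neg, C_1, mul_assoc]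
  rw [h]
  exact WH_C_mul (WH_X i) _

theorem WH_mul {m n : ℕ} {F G : Sy K} (hF : WH m F) (hG : WH n G) : WH (m + n) (F * G) :=
  hF.mul hG

theorem WH_sum {ι : Type*} (s : Finset ι) (f : ι → Sy K) (n : ℕ) (h : ∀ i ∈ s, WH n (f i)) :
    WH n (∑ i ∈ s, f i) := IsWeightedHomogeneous.sum s f n h

theorem WH_zero (n : ℕ) : WH n (0 : Sy K) := isWeightedHomogeneous_zero K _ n

theorem WH_one : WH 0 (1 : Sy K) := isWeightedHomogeneous_one K _

theorem WH_smul {n : ℕ} {F : Sy K} (h : WH n F) (c : K) : WH n (c • F) := by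
  rw [MvPolynomial.smul_eq_C_mul]
  exact WH_C_mul h c

theorem Yy_apply (q t : K) (b : Module.Basis Par K (Sy K)) (i j : ℕ) (F : Sy K) :
    Yy q t b i j F = ∑ p ∈ antidiagonal j, Nn q t b p.1 (est q t i * Hn q t b p.2 F) := by
  rw [Yy, LinearMap.sum_apply]
  rfl

theorem WH_Yy {q t : K} {b : Module.Basis Par K (Sy K)} (h : IsE q t b) (i j : ℕ) {n : ℕ}
    {F : Sy K} (hF : WH n F) : WH (i + n) (Yy q t b i j F) := by
  rw [Yy_apply]
  refine WH_sum _ _ _ fun p _ => ?_
  exact WH_dg h (WH_mul (WH_est q t i) (WH_dg h hF _)) _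

/-- an operator that commutes with `D_0` and raises the degree is zero -/
theorem eq_zero_of_comm {q t : K} {b : Module.Basis Par K (Sy K)} (hg : Gn q t) (h : IsE q t b)
    (A : Module.End K (Sy K)) (i : ℕ) (hi : 0 < i) (hA : ∀ n F, WH n F → WH (i + n) (A F))
    (hc : ∀ F, Dk q t 0 (A F) = A (Dk q t 0 F)) : A = 0 := by
  refine b.ext fun μ => ?_
  rw [LinearMap.zero_apply]
  apply b.repr.injective
  rw [map_zero]
  ext ν
  rw [Finsupp.zero_apply]
  by_contra hne
  have h1 := repr_WH h (hA _ _ (h.hom μ)) hne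
  have h2 := hc (b μ)
  rw [h.eig, map_smul] at h2
  have h3 := congrArg (fun F => b.repr F ν) h2
  have h4 : b.repr (Dk q t 0 (A (b μ))) ν
      = (1 - Mj q t 0 * Ps q t ν 0) * b.repr (A (b μ)) ν := by
    rw [Dk_zero_eq_dg h, dg_repr]
  simp only [map_smul, Finsupp.smul_apply, smul_eq_mul] at h3
  rw [h4] at h3
  have h5 : 1 - Mj q t 0 * Ps q t ν 0 = 1 - Mj q t 0 * Ps q t μ 0 := mul_right_cancel₀ hne h3
  have h6 : Mj q t 0 * Ps q t ν 0 = Mj q t 0 * Ps q t μ 0 := by
    linear_combination -h5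
  have h7 := hg.inj _ _ (mul_left_cancel₀ (hg.Mj_ne 0) h6)
  subst h7
  omega

end TH63
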