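import Pool.Agent.Helper63.TH.Base

/-! # Row W1 -/

set_option linter.unusedSectionVars false

namespace TH63

open TH MvPolynomial Finset

section abs
variable {R : Type*} [Ring R]

/-- series in the outer variable -/
noncomputable def sx (f : ℕ → R) : PowerSeries (PowerSeries R) :=
  PowerSeries.mk fun n => PowerSeries.C (f n)

/-- series in the inner variable -/
noncomputable def sv (f : ℕ → R) : PowerSeries (PowerSeries R) := PowerSeries.C (PowerSeries.mk f)

theorem sv_mul (f g : ℕ → R) :
    sv f * sv g = sv (fun n => ∑ p ∈ antidiagonal n, f p.1 * g p.2) := by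
  rw [sv, sv, sv, ← map_mul]
  congr 1
  ext n
  rw [PowerSeries.coeff_mul, PowerSeries.coeff_mk]
  simp only [PowerSeries.coeff_mk]

theorem sx_mul (f g : ℕ → R) :
    sx f * sx g = sx (fun n => ∑ p ∈ antidiagonal n, f p.1 * g p.2) := by
  refine PowerSeries.ext fun n => ?_
  rw [PowerSeries.coeff_mul, sx, sx, sx]
  simp only [PowerSeries.coeff_mk]
  rw [map_sum]
  refine Finset.sum_congr rfl fun p _ => ?_
  rw [map_mul]

theorem sx_one : sx (fun n => if n = 0 then (1 : R) else 0) = 1 := by
  refine PowerSeries.ext fun n => ?_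
  rw [sx, PowerSeries.coeff_mk, PowerSeries.coeff_one]
  split_ifs <;> simp

theorem sv_one : sv (fun n => if n = 0 then (1 : R) else 0) = 1 := by
  rw [sv]
  have : PowerSeries.mk (fun n => if n = 0 then (1 : R) else 0) = 1 := by
    ext n
    rw [PowerSeries.coeff_mk, PowerSeries.coeff_one]
  rw [this, map_one]

theorem coeff_sx_mul_sv (f g : ℕ → R) (i j : ℕ) :
    PowerSeries.coeff j (PowerSeries.coeff i (sx f * sv g)) = f i * g j := by
  rw [sv, PowerSeries.coeff_mul_C, sx, PowerSeries.coeff_mk, PowerSeries.coeff_C_mul,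
    PowerSeries.coeff_mk]

theorem coeff_sv_mul_sx (f g : ℕ → R) (i j : ℕ) :
    PowerSeries.coeff j (PowerSeries.coeff i (sv f * sx g)) = f j * g i := by
  rw [sv, PowerSeries.coeff_C_mul, sx, PowerSeries.coeff_mk, PowerSeries.coeff_mul_C,
    PowerSeries.coeff_mk]

theorem sx_comm_sv (f g : ℕ → R) (h : ∀ i j, f i * g j = g j * f i) :
    sx f * sv g = sv g * sx f := by
  refine PowerSeries.ext fun i => PowerSeries.ext fun j => ?_
  rw [coeff_sx_mul_sv, coeff_sv_mul_sx, h]

theorem coeff_x (f g h : ℕ → R) (i j : ℕ) :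
    PowerSeries.coeff j (PowerSeries.coeff i (sx f * sv g * sx h))
      = ∑ p ∈ antidiagonal i, f p.1 * g j * h p.2 := by
  rw [PowerSeries.coeff_mul, map_sum]
  refine Finset.sum_congr rfl fun p _ => ?_
  have h1 : PowerSeries.coeff p.2 (sx h) = PowerSeries.C (h p.2) := by
    rw [sx, PowerSeries.coeff_mk]
  rw [h1, PowerSeries.coeff_mul_C, coeff_sx_mul_sv]

theorem coeff_v (f g h : ℕ → R) (i j : ℕ) :
    PowerSeries.coeff j (PowerSeries.coeff i (sv f * sx g * sv h))
      = ∑ p ∈ antidiagonal j, f p.1 * g i * h p.2 := by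
  have h1 : PowerSeries.coeff i (sv f * sx g * sv h)
      = PowerSeries.coeff i (sv f * sx g) * PowerSeries.mk h := by
    rw [sv, sv, PowerSeries.coeff_mul_C]
  rw [h1, PowerSeries.coeff_mul]
  refine Finset.sum_congr rfl fun p _ => ?_
  rw [coeff_sv_mul_sx, PowerSeries.coeff_mk]

theorem abs_W1 (N T H E : ℕ → R) (P : R)
    (hC : ∀ k, ∑ p ∈ antidiagonal k, N p.1 * H p.2 = if k = 0 then 1 else 0)
    (hG : ∀ k l, (∑ p ∈ antidiagonal k, T p.1 * N p.2) * (∑ p ∈ antidiagonal l, T p.1 * N p.2)
      = (∑ p ∈ antidiagonal l, T p.1 * N p.2) * (∑ p ∈ antidiagonal k, T p.1 * N p.2))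
    (hP : ∀ a, P * T a = E a * P) (hH : ∀ a b, H a * H b = H b * H a) (i j : ℕ) :
    ∑ p ∈ antidiagonal j, E p.1 * P * (∑ r ∈ antidiagonal p.2, N r.1 * T i * H r.2)
      = ∑ p ∈ antidiagonal i, E p.1 * P * (∑ r ∈ antidiagonal p.2, N r.1 * T j * H r.2) := by
  set P' : PowerSeries (PowerSeries R) := PowerSeries.C (PowerSeries.C P) with hP'
  have hGG : sx T * sx N * (sv T * sv N) = sv T * sv N * (sx T * sx N) := by
    rw [sx_mul, sv_mul]
    exact sx_comm_sv _ _ hG
  have hNHx : sx N * sx H = 1 := by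
    rw [sx_mul, ← sx_one]
    congr 1
    funext n
    exact hC n
  have hNHv : sv N * sv H = 1 := by
    rw [sv_mul, ← sv_one]
    congr 1
    funext n
    exact hC n
  have hHH : sx H * sv H = sv H * sx H := sx_comm_sv _ _ hH
  have hPx : P' * sx T = sx E * P' := by
    refine PowerSeries.ext fun n => ?_
    rw [hP', PowerSeries.coeff_C_mul, PowerSeries.coeff_mul_C, sx, sx, PowerSeries.coeff_mk,
      PowerSeries.coeff_mk, ← map_mul, ← map_mul, hP]
  have hPv : P' * sv T = sv E * P' := by
    rw [hP', sv, sv, ← map_mul, ← map_mul]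
    congr 1
    ext n
    rw [PowerSeries.coeff_C_mul, PowerSeries.coeff_mul_C, PowerSeries.coeff_mk,
      PowerSeries.coeff_mk, hP]
  have main : sx E * (P' * (sx N * sv T * sx H)) = sv E * (P' * (sv N * sx T * sv H)) := by
    calc sx E * (P' * (sx N * sv T * sx H))
        = (sx E * P') * (sx N * sv T) * ((sv N * sv H) * sx H) := by
          rw [hNHv, one_mul]
          simp only [mul_assoc]
      _ = P' * (sx T * sx N * (sv T * sv N)) * (sv H * sx H) := by
          rw [← hPx]
          simp only [mul_assoc]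
      _ = P' * (sv T * sv N * (sx T * sx N)) * (sx H * sv H) := by
          rw [hGG, hHH]
      _ = (P' * sv T) * (sv N * sx T) * ((sx N * sx H) * sv H) := by
          simp only [mul_assoc]
      _ = _ := by
          rw [hPv, hNHx, one_mul]
          simp only [mul_assoc]
  have h1 : PowerSeries.coeff j (PowerSeries.coeff i (sx E * (P' * (sx N * sv T * sx H))))
      = ∑ p ∈ antidiagonal i, E p.1 * P * (∑ r ∈ antidiagonal p.2, N r.1 * T j * H r.2) := by
    rw [PowerSeries.coeff_mul, map_sum]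
    refine Finset.sum_congr rfl fun p _ => ?_
    have e1 : PowerSeries.coeff p.1 (sx E) = PowerSeries.C (E p.1) := by
      rw [sx, PowerSeries.coeff_mk]
    rw [e1, PowerSeries.coeff_C_mul, hP', PowerSeries.coeff_C_mul, PowerSeries.coeff_C_mul,
      coeff_x, ← mul_assoc]
  have h2 : PowerSeries.coeff j (PowerSeries.coeff i (sv E * (P' * (sv N * sx T * sv H))))
      = ∑ p ∈ antidiagonal j, E p.1 * P * (∑ r ∈ antidiagonal p.2, N r.1 * T i * H r.2) := by
    have e1 : PowerSeries.coeff i (sv E * (P' * (sv N * sx T * sv H)))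
        = PowerSeries.mk E * (PowerSeries.C P * PowerSeries.coeff i (sv N * sx T * sv H)) := by
      rw [sv, PowerSeries.coeff_C_mul, hP', PowerSeries.coeff_C_mul]
    rw [e1, PowerSeries.coeff_mul]
    refine Finset.sum_congr rfl fun p _ => ?_
    rw [PowerSeries.coeff_mk, PowerSeries.coeff_C_mul, coeff_v, ← mul_assoc]
  rw [← h1, ← h2, main]

end abs

variable (K : Type*) [Field K] [CharZero K]

theorem st_W1 (hCS : ST_CS K) (hGG : ST_GG K) : ST_W1 K := by
  intro q t hg b hb u i j F
  obtain ⟨-, -, hC, -⟩ := hCS q t hg b hb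
  set P : Module.End K (Sy K) := (Algebra.linearMap K (Sy K)) ∘ₗ (ep u).toLinearMap with hPd
  have hP : ∀ G : Sy K, P G = C (ep u G) := fun G => rfl
  have hPT : ∀ a, P * mu (est q t a) = (ep u (est q t a) • (1 : Module.End K (Sy K))) * P := by
    intro a
    refine LinearMap.ext fun G => ?_
    rw [Module.End.mul_apply, Module.End.mul_apply, mu_apply, hP, hP, map_mul, C_mul,
      LinearMap.smul_apply, Module.End.one_apply, MvPolynomial.smul_eq_C_mul]
  have hHH : ∀ a c, Hn q t b a * Hn q t b c = Hn q t b c * Hn q t b a := fun a c => dg_comm b _ _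
  have h := abs_W1 (Nn q t b) (fun a => mu (est q t a)) (Hn q t b)
    (fun a => ep u (est q t a) • (1 : Module.End K (Sy K))) P hC (hGG q t hg b hb) hPT hHH i j
  have h1 := LinearMap.congr_fun h F
  rw [LinearMap.sum_apply, LinearMap.sum_apply] at h1
  have h2 : ∀ (s : Finset (ℕ × ℕ)) (k : ℕ),
      ∑ p ∈ s, ((ep u (est q t p.1) • (1 : Module.End K (Sy K))) * P
        * (∑ r ∈ antidiagonal p.2, Nn q t b r.1 * mu (est q t k) * Hn q t b r.2)) F
      = C (∑ p ∈ s, ep u (est q t p.1) * ep u (Yy q t b k p.2 F)) := by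
    intro s k
    rw [map_sum]
    refine Finset.sum_congr rfl fun p _ => ?_
    rw [Module.End.mul_apply, Module.End.mul_apply, LinearMap.smul_apply, Module.End.one_apply,
      hP, MvPolynomial.smul_eq_C_mul, ← C_mul]
    rfl
  have h3 := (h2 _ _).symm.trans (h1.trans (h2 _ _))
  exact C_injective ℕ K h3

end TH63
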