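import Pool.Agent.Helper63.TH.Base

/-! # Row W2 -/

set_option linter.unusedSectionVars false

namespace TH63

open TH MvPolynomial Finset

theorem conv_range {R : Type*} [CommRing R] (f g : ℕ → R) (n : ℕ) :
    ∑ p ∈ antidiagonal n, f p.1 * g p.2 = ∑ s ∈ range (n + 1), f (n - s) * g s := by
  rw [← Finset.Nat.sum_antidiagonal_swap]
  rw [Finset.Nat.sum_antidiagonal_eq_sum_range_succ_mk]
  rfl

theorem abs_W2 {R : Type*} [CommRing R] (E : ℕ → R) (W : ℕ → ℕ → R) (hE : E 0 = 1)
    (hW : ∀ i m, i < m → W i m = 0)
    (h1 : ∀ i j, ∑ p ∈ antidiagonal j, E p.1 * W i p.2 = ∑ p ∈ antidiagonal i, E p.1 * W j p.2) :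
    ∀ j i, j ≤ i → W i j = E (i - j) * W j j := by
  intro j
  induction j using Nat.strong_induction_on with
  | _ j ih =>
    intro i hij
    have h := h1 i j
    rw [conv_range, conv_range] at h
    have h2 : ∑ s ∈ range (i + 1), E (i - s) * W j s = ∑ s ∈ range (j + 1), E (i - s) * W j s := by
      symm
      refine Finset.sum_subset ?_ ?_
      · intro x hx
        rw [mem_range] at hx ⊢
        omega
      · intro x _ hx
        rw [mem_range] at hx
        rw [hW j x (by omega), mul_zero]
    rw [h2, Finset.sum_range_succ, Finset.sum_range_succ, Nat.sub_self, hE, one_mul] at h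
    have h3 : ∑ s ∈ range j, E (j - s) * W i s = ∑ s ∈ range j, E (i - s) * W j s := by
      refine Finset.sum_congr rfl fun s hs => ?_
      rw [mem_range] at hs
      rw [ih s hs i (by omega), ih s hs j (by omega)]
      ring
    rw [h3] at h
    exact add_left_cancel h

variable (K : Type*) [Field K] [CharZero K]

theorem st_W2 (hW1 : ST_W1 K) (hY2 : ST_Y2 K) : ST_W2 K := by
  intro q t hg b hb u i j F hji
  refine abs_W2 (fun a => ep u (est q t a)) (fun i j => ep u (Yy q t b i j F)) ?_ ?_ ?_ j i hji
  · change ep u (est q t 0) = 1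
    rw [est_zero, map_one]
  · intro i m him
    change ep u (Yy q t b i m F) = 0
    rw [hY2 q t hg b hb i m him, LinearMap.zero_apply, map_zero]
  · intro i j
    exact hW1 q t hg b hb u i j F

end TH63
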