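import Pool.Agent.Helper63.TH.Base

/-! # Row W3 -/

set_option linter.unusedSectionVars false

namespace TH63

open TH MvPolynomial Finset

variable (K : Type*) [Field K] [CharZero K]

theorem st_W3 (hY1 : ST_Y1 K) (hY2 : ST_Y2 K) (hW2 : ST_W2 K) (hEP1 : ST_EP1 K) : ST_W3 K := by
  intro q t hg b hb u
  obtain ⟨hY0, -, hYc, hYd⟩ := hY1 q t hg b hb
  have hY := hY2 q t hg b hb
  have hW := hW2 q t hg b hb u
  have hE := hEP1 q t u
  have hX : ∀ F : Sy K, ep u (X 0 * F) = (1 - u) * ep u F := by
    intro F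
    rw [map_mul]
    congr 1
    rw [ep, ev, aeval_X]
    simp
  have h00 : ∀ F : Sy K, Yy q t b 0 0 F = F := by
    intro F
    rw [hY0 0, if_pos rfl, Module.End.one_apply]
  have hc : ∀ i m (F : Sy K), Dk q t 0 (Yy q t b (i + 1) m F) = Yy q t b (i + 1) m (Dk q t 0 F)
      + Yy q t b i m (Dk q t 1 F)
      + (if m = 0 then 0 else Yy q t b i (m - 1) (Bn q t 2 F)) := by
    intro i m F
    have h := LinearMap.congr_fun (hYc i m) F
    have h1 : Dk q t 0 (Yy q t b (i + 1) m F) - Yy q t b (i + 1) m (Dk q t 0 F)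
        = Yy q t b i m (Dk q t 1 F)
          + (if m = 0 then 0 else Yy q t b i (m - 1) * Bn q t 2 : Module.End K (Sy K)) F := h
    have h2 : (if m = 0 then 0 else Yy q t b i (m - 1) * Bn q t 2 : Module.End K (Sy K)) F
        = (if m = 0 then 0 else Yy q t b i (m - 1) (Bn q t 2 F)) := by
      split_ifs <;> rfl
    rw [h2] at h1
    rw [sub_eq_iff_eq_add] at h1
    rw [h1]
    abel
  have hd : ∀ i m (F : Sy K), ep u (Yy q t b i (m + 1) (X 0 * F)) + ep u (Yy q t b i m (Dk q t 1 F))
      = (1 - u) * ep u (Yy q t b i (m + 1) F)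
        + (u * ep u (Dk q t 0 (Yy q t b i m F)) - ep u (Yy q t b i m F)) := by
    intro i m F
    have h := LinearMap.congr_fun (hYd i m) F
    have h1 : Yy q t b i (m + 1) (X 0 * F) + Yy q t b i m (Dk q t 1 F)
        = X 0 * Yy q t b i (m + 1) F + Dk q t 1 (Yy q t b i m F) := h
    have h2 := congrArg (ep u) h1
    rw [map_add, map_add, hX, hE] at h2
    exact h2
  have second : ∀ j (F : Sy K), ep u (Yy q t b (j + 1) (j + 1) (Dk q t 1 F))
      = -ep u (Yy q t b (j + 1) (j + 1) F) + u * ep u (Yy q t b (j + 1) (j + 1) (Dk q t 0 F))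
        + u * ep u (Yy q t b j j (Bn q t 2 F)) := by
    intro j F
    have h := hd (j + 1) (j + 1) F
    rw [hY (j + 1) (j + 1 + 1) (by omega), hc j (j + 1) F, hY j (j + 1) (by omega),
      if_neg (by omega), Nat.add_sub_cancel, map_add, map_add] at h
    simp only [LinearMap.zero_apply, map_zero] at h
    linear_combination h
  intro j F
  refine ⟨?_, second j F⟩
  have h := hd (j + 1) j F
  have hW1 : ∀ G : Sy K, ep u (Yy q t b (j + 1) j G) = ep u (est q t 1) * ep u (Yy q t b j j G) := by
    intro G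
    have := hW (j + 1) j G (by omega)
    rw [Nat.add_sub_cancel_left] at this
    exact this
  rw [hc j j F, map_add, map_add, hW1, hW1, hW1] at h
  cases j with
  | zero =>
    rw [if_pos rfl] at h
    simp only [map_zero, h00, zero_add] at h ⊢
    rw [hE] at h ⊢
    linear_combination h
  | succ j =>
    rw [if_neg (by omega), Nat.add_sub_cancel] at h
    have hW3 : ep u (Yy q t b (j + 1) j (Bn q t 2 F))
        = ep u (est q t 1) * ep u (Yy q t b j j (Bn q t 2 F)) := by
      have := hW (j + 1) j (Bn q t 2 F) (by omega)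
      rw [Nat.add_sub_cancel_left] at this
      exact this
    rw [hW3] at h
    have hs := second j F
    linear_combination h - (ep u (est q t 1)) * hs

end TH63
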