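import Pool.Agent.Helper63.TH.Base

/-! # Row Y1 -/

set_option linter.unusedSectionVars false

namespace TH63

open TH MvPolynomial Finset

section abs
variable {R : Type*} [Ring R] (D0 D1 B2 e : R) (N T H : ℕ → R)

theorem abs_Y1_c
    (hDN : ∀ r, D0 * N r = N r * D0) (hDH : ∀ r, D0 * H r = H r * D0) (hH0 : H 0 = 1)
    (hH1 : ∀ k, H (k + 1) * (-D1) = (-D1) * H (k + 1) + H k * B2)
    (hDT : ∀ j, D0 * T (j + 1) = T (j + 1) * D0 + T j * D1) (i m : ℕ) :
    D0 * (∑ p ∈ antidiagonal m, N p.1 * T (i + 1) * H p.2)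
        - (∑ p ∈ antidiagonal m, N p.1 * T (i + 1) * H p.2) * D0
      = (∑ p ∈ antidiagonal m, N p.1 * T i * H p.2) * D1
        + (if m = 0 then 0 else (∑ p ∈ antidiagonal (m - 1), N p.1 * T i * H p.2) * B2) := by
  have hD1H : ∀ s, D1 * H s = H s * D1 + (if s = 0 then 0 else H (s - 1) * B2) := by
    intro s
    cases s with
    | zero => rw [hH0, if_pos rfl]; simp
    | succ k =>
      have h := hH1 k
      rw [mul_neg, neg_mul] at h
      rw [if_neg (by omega), Nat.add_sub_cancel]
      have h4 : D1 * H (k + 1) = -(-(D1 * H (k + 1)) + H k * B2) + H k * B2 := by abel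
      rw [h4, ← h, neg_neg]
  have key : ∀ p : ℕ × ℕ,
      D0 * (N p.1 * T (i + 1) * H p.2) - (N p.1 * T (i + 1) * H p.2) * D0
      = N p.1 * T i * H p.2 * D1
        + (if p.2 = 0 then 0 else N p.1 * T i * H (p.2 - 1) * B2) := by
    intro p
    have e1 : D0 * (N p.1 * T (i + 1) * H p.2)
        = N p.1 * T (i + 1) * (D0 * H p.2) + N p.1 * T i * (D1 * H p.2) := by
      calc D0 * (N p.1 * T (i + 1) * H p.2)
          = (D0 * N p.1) * T (i + 1) * H p.2 := by simp only [mul_assoc]
        _ = N p.1 * (D0 * T (i + 1)) * H p.2 := by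
            rw [hDN]
            simp only [mul_assoc]
        _ = _ := by
            rw [hDT, mul_add, add_mul]
            simp only [mul_assoc]
    rw [e1, hDH, hD1H, mul_add]
    have e2 : N p.1 * T i * (if p.2 = 0 then 0 else H (p.2 - 1) * B2)
        = (if p.2 = 0 then 0 else N p.1 * T i * H (p.2 - 1) * B2) := by
      split_ifs
      · rw [mul_zero]
      · simp only [mul_assoc]
    rw [e2]
    simp only [mul_assoc]
    abel
  rw [Finset.mul_sum, Finset.sum_mul, ← Finset.sum_sub_distrib,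
    Finset.sum_congr rfl (fun p _ => key p), Finset.sum_add_distrib, ← Finset.sum_mul]
  congr 1
  cases m with
  | zero => simp
  | succ m =>
    rw [if_neg (by omega), Nat.add_sub_cancel,
      sum_shift_snd (fun a c => N a * T i * H c * B2) m, ← Finset.sum_mul]

theorem abs_Y1_d (hH0 : H 0 = 1) (hN0 : N 0 = 1)
    (hHe1 : ∀ k, H (k + 1) * e = e * H (k + 1) + H k * (-D1))
    (hNe1 : ∀ k, N (k + 1) * e = e * N (k + 1) - (-D1) * N k)
    (hTe : ∀ i, T i * e = e * T i) (i m : ℕ) :
    (∑ p ∈ antidiagonal (m + 1), N p.1 * T i * H p.2) * e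
        + (∑ p ∈ antidiagonal m, N p.1 * T i * H p.2) * D1
      = e * (∑ p ∈ antidiagonal (m + 1), N p.1 * T i * H p.2)
        + D1 * (∑ p ∈ antidiagonal m, N p.1 * T i * H p.2) := by
  have hHe : ∀ s, H s * e = e * H s - (if s = 0 then 0 else H (s - 1) * D1) := by
    intro s
    cases s with
    | zero => rw [hH0, if_pos rfl]; simp
    | succ k =>
      rw [hHe1 k, if_neg (by omega), Nat.add_sub_cancel, mul_neg, sub_eq_add_neg]
  have hNe : ∀ s, N s * e = e * N s + (if s = 0 then 0 else D1 * N (s - 1)) := by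
    intro s
    cases s with
    | zero => rw [hN0, if_pos rfl]; simp
    | succ k =>
      rw [hNe1 k, if_neg (by omega), Nat.add_sub_cancel, neg_mul, sub_neg_eq_add]
  have key : ∀ p : ℕ × ℕ,
      (N p.1 * T i * H p.2) * e
        = e * (N p.1 * T i * H p.2)
          + (if p.1 = 0 then 0 else D1 * (N (p.1 - 1) * T i * H p.2))
          - (if p.2 = 0 then 0 else N p.1 * T i * H (p.2 - 1) * D1) := by
    intro p
    have e2 : N p.1 * T i * (if p.2 = 0 then 0 else H (p.2 - 1) * D1)
        = (if p.2 = 0 then 0 else N p.1 * T i * H (p.2 - 1) * D1) := by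
      split_ifs
      · rw [mul_zero]
      · simp only [mul_assoc]
    have e3 : (if p.1 = 0 then 0 else D1 * N (p.1 - 1)) * T i * H p.2
        = (if p.1 = 0 then 0 else D1 * (N (p.1 - 1) * T i * H p.2)) := by
      split_ifs
      · rw [zero_mul, zero_mul]
      · simp only [mul_assoc]
    calc (N p.1 * T i * H p.2) * e
        = N p.1 * T i * (H p.2 * e) := by simp only [mul_assoc]
      _ = N p.1 * (T i * e) * H p.2
          - N p.1 * T i * (if p.2 = 0 then 0 else H (p.2 - 1) * D1) := by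
          rw [hHe, mul_sub]
          simp only [mul_assoc]
      _ = (N p.1 * e) * T i * H p.2
          - N p.1 * T i * (if p.2 = 0 then 0 else H (p.2 - 1) * D1) := by
          rw [hTe]
          simp only [mul_assoc]
      _ = _ := by
          rw [hNe, add_mul, add_mul, e2, e3]
          simp only [mul_assoc]
  have h1 : (∑ p ∈ antidiagonal (m + 1), N p.1 * T i * H p.2) * e
      = e * (∑ p ∈ antidiagonal (m + 1), N p.1 * T i * H p.2)
        + D1 * (∑ p ∈ antidiagonal m, N p.1 * T i * H p.2)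
        - (∑ p ∈ antidiagonal m, N p.1 * T i * H p.2) * D1 := by
    rw [Finset.sum_mul, Finset.sum_congr rfl (fun p _ => key p), Finset.sum_sub_distrib,
      Finset.sum_add_distrib, ← Finset.mul_sum,
      sum_shift_fst (fun a c => D1 * (N a * T i * H c)) m,
      sum_shift_snd (fun a c => N a * T i * H c * D1) m,
      ← Finset.mul_sum, ← Finset.sum_mul]
  rw [h1]
  abel

end abs

variable (K : Type*) [Field K] [CharZero K]

theorem st_Y1 (hCS : ST_CS K) (hDX : ST_DX K) (hDT : ST_DT K) : ST_Y1 K := by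
  intro q t hg b hb
  obtain ⟨hN, hH, hC, -, hN0, hH0, -⟩ := hCS q t hg b hb
  have hB1 := Bn_one hDX q t (hg.Mj_ne 0)
  have hD0 := Dk_zero_eq_dg hb.toIsE
  have hDN : ∀ r, Dk q t 0 * Nn q t b r = Nn q t b r * Dk q t 0 := by
    intro r
    rw [hD0, Nn, dg_comm]
  have hDH : ∀ r, Dk q t 0 * Hn q t b r = Hn q t b r * Dk q t 0 := by
    intro r
    rw [hD0, Hn, dg_comm]
  have hH1 : ∀ k, Hn q t b (k + 1) * (-Dk q t 1)
      = (-Dk q t 1) * Hn q t b (k + 1) + Hn q t b k * Bn q t 2 := by
    intro k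
    have h := hH k 1
    rw [hB1] at h
    exact h
  have hHe : ∀ k, Hn q t b (k + 1) * mu (X 0)
      = mu (X 0) * Hn q t b (k + 1) + Hn q t b k * (-Dk q t 1) := by
    intro k
    have h := hH k 0
    rw [zero_add, hB1] at h
    exact h
  have hNe : ∀ k, Nn q t b (k + 1) * mu (X 0)
      = mu (X 0) * Nn q t b (k + 1) - (-Dk q t 1) * Nn q t b k := by
    intro k
    have h := hN k 0
    rw [zero_add, hB1] at h
    exact h
  have hT : ∀ j, Dk q t 0 * mu (est q t (j + 1))
      = mu (est q t (j + 1)) * Dk q t 0 + mu (est q t j) * Dk q t 1 := by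
    intro j
    have h := hDT q t (fun j => hg.Mj_ne j) 0 j
    rw [zero_add] at h
    exact h
  refine ⟨?_, ?_, ?_, ?_⟩
  · intro j
    rw [← hC j, Yy]
    refine Finset.sum_congr rfl fun p _ => ?_
    rw [est_zero, mu_one, mul_one]
  · intro i
    have h1 : Yy q t b i 0 = Nn q t b 0 * mu (est q t i) * Hn q t b 0 := by
      rw [Yy, Finset.Nat.antidiagonal_zero, Finset.sum_singleton]
    rw [h1, hN0, hH0, one_mul, mul_one]
  · intro i m
    exact abs_Y1_c (Dk q t 0) (Dk q t 1) (Bn q t 2) (Nn q t b) (fun i => mu (est q t i))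
      (Hn q t b) hDN hDH hH0 hH1 hT i m
  · intro i m
    exact abs_Y1_d (Dk q t 1) (mu (X 0)) (Nn q t b) (fun i => mu (est q t i))
      (Hn q t b) hH0 hN0 hHe hNe (fun i => mu_comm _ _) i m

end TH63
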