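import Pool.Agent.Helper63.TH.Deg

/-! # Row Y2 -/

set_option linter.unusedSectionVars false

namespace TH63

open TH MvPolynomial Finset

variable (K : Type*) [Field K] [CharZero K]

theorem st_Y2 (hY1 : ST_Y1 K) : ST_Y2 K := by
  intro q t hg b hb i
  obtain ⟨h0, -, h3, -⟩ := hY1 q t hg b hb
  induction i with
  | zero =>
    intro m hm
    rw [h0 m, if_neg (by omega)]
  | succ i ih =>
    intro m hm
    refine eq_zero_of_comm hg hb.toIsE _ (i + 1) (by omega)
      (fun n F hF => WH_Yy hb.toIsE (i + 1) m hF) fun F => ?_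
    have h := LinearMap.congr_fun (h3 i m) F
    have h1 : Dk q t 0 (Yy q t b (i + 1) m F) - Yy q t b (i + 1) m (Dk q t 0 F)
        = Yy q t b i m (Dk q t 1 F)
          + (if m = 0 then 0 else Yy q t b i (m - 1) * Bn q t 2 : Module.End K (Sy K)) F := h
    rw [ih m (by omega), ih (m - 1) (by omega), zero_mul] at h1
    have h2 : ((if m = 0 then 0 else 0 : Module.End K (Sy K)) F) = 0 := by
      split_ifs <;> rfl
    rw [h2, LinearMap.zero_apply, add_zero] at h1
    exact sub_eq_zero.1 h1

end TH63
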